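import Mathlib
import Pool.Agent.H575R2.Farkas
import Pool.Agent.Results.MP_23e236_ag.SymmetricDivisors

set_option autoImplicit false

/-!
# Averages of curves on `M̄_{0,n}` are effective sums of F-curves

The boundary divisors of `M̄_{0,n}` are the `δ_S = δ_(Sᶜ)`, `S` a set of marks (the marks are the
elements of `Fin n`) with `2 ≤ |S| ≤ n - 2`; they span `N^1`.  A curve on `M̄_{0,n}` lies in a
stratum: it moves in the components `M̄_{0,k}` of the stratum; a component is given by a map
`ν : Fin n → Fin k` onto its special points: `ν x` is the special point to which the mark `x` is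
attached.
-/

namespace Pool.Agent.Results.MP_159100_ag.SymmetricCurves

open Finset

/-- `m T` and `ψ i` are the degrees of `δ_T` and `ψ_i` on a curve in `M̄_{0,k}` which is not
contained in the boundary: all `m T ≥ 0`, and `ψ_i = ∑ δ_T`, the sum over the `T` that contain `i`
and do not contain `j` and `l`, for all marks `j ≠ l` different from `i`. -/
def IsCurve {k : ℕ} (m : Finset (Fin k) → ℕ) (ψ : Fin k → ℕ) : Prop :=
  (∀ T, m Tᶜ = m T) ∧ (∀ T : Finset (Fin k), T.card ≤ 1 → m T = 0) ∧
    ∀ i j l : Fin k, i ≠ j → i ≠ l → j ≠ l →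
      ∑ T ∈ univ.filter (fun T : Finset (Fin k) => i ∈ T ∧ j ∉ T ∧ l ∉ T), m T = ψ i

/-- The marks that are attached to the special points in `T`. -/
def marks {n k : ℕ} (ν : Fin n → Fin k) (T : Finset (Fin k)) : Finset (Fin n) :=
  univ.filter fun x => ν x ∈ T

/-- Is `δ_X` the divisor `δ_S`? -/
def same {n : ℕ} (X S : Finset (Fin n)) : ℝ :=
  (if X = S then 1 else 0) + (if Xᶜ = S then 1 else 0)

/-- The intersection number with `δ_S` of a curve in the component `M̄_{0,k}` given by `ν` of a
stratum: it is `m T` if `S` is the set of marks attached to `T`, `2 ≤ |T| ≤ k - 2`, it is `-ψ_i` if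
`S` or `Sᶜ` is the set of marks attached to `i`, and `0` for the other `S`. -/
noncomputable def inters {n k : ℕ} (ν : Fin n → Fin k) (m : Finset (Fin k) → ℕ) (ψ : Fin k → ℕ)
    (S : Finset (Fin n)) : ℝ :=
  ∑ T, (if marks ν T = S then (m T : ℝ) else 0) - ∑ i, same (marks ν {i}) S * ψ i

/-- The F-curves: partitions `A, B, C, (the rest)` of the marks. -/
abbrev FType (n : ℕ) : Type :=
  {t : Finset (Fin n) × Finset (Fin n) × Finset (Fin n) //
    t.1.Nonempty ∧ t.2.1.Nonempty ∧ t.2.2.Nonempty ∧ (t.1 ∪ t.2.1 ∪ t.2.2)ᶜ.Nonempty ∧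
      Disjoint t.1 t.2.1 ∧ Disjoint t.1 t.2.2 ∧ Disjoint t.2.1 t.2.2}

/-- The intersection number of the F-curve of type `t = (A, B, C)` with `δ_S`. -/
def inter {n : ℕ} (t : FType n) (S : Finset (Fin n)) : ℝ :=
  same (t.1.1 ∪ t.1.2.1) S + same (t.1.1 ∪ t.1.2.2) S + same (t.1.2.1 ∪ t.1.2.2) S -
    same t.1.1 S - same t.1.2.1 S - same t.1.2.2 S - same (t.1.1 ∪ t.1.2.1 ∪ t.1.2.2) S

/-- The class in `N_1` with the intersection numbers `a S` with the `δ_S` is a nonnegative
combination of F-curves. -/
def InFCone {n : ℕ} (a : Finset (Fin n) → ℝ) : Prop :=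
  ∃ w : FType n → ℝ, (∀ t, 0 ≤ w t) ∧
    ∀ S : Finset (Fin n), 2 ≤ S.card → S.card + 2 ≤ n → a S = ∑ t, w t * inter t S

/-- The numbers of marks of all colours that are attached to the special point `i`. -/
def branch {n k r : ℕ} (col : Fin n → Fin r) (ν : Fin n → Fin k) (i : Fin k) : Fin r → ℕ :=
  fun t => (univ.filter fun x => ν x = i ∧ col x = t).card

/-! ### From divisors to curves -/

/-- The divisor of an arbitrary function. -/
def proj {n : ℕ} (u : Finset (Fin n) → ℝ) (S : Finset (Fin n)) : ℝ :=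
  if 2 ≤ S.card ∧ S.card + 2 ≤ n then u S + u Sᶜ else 0

theorem card_compl' {n : ℕ} (S : Finset (Fin n)) : Sᶜ.card + S.card = n := by
  rw [add_comm, card_add_card_compl, Fintype.card_fin]

theorem proj_div {n : ℕ} (u : Finset (Fin n) → ℝ) :
    MP_23e236_ag.SymmetricDivisors.IsDivisor (proj u) := by
  constructor
  · intro S
    have h := card_compl' S
    by_cases h1 : 2 ≤ S.card ∧ S.card + 2 ≤ n
    · rw [proj, if_pos (by omega), proj, if_pos h1, compl_compl, add_comm]
    · rw [proj, if_neg (by omega), proj, if_neg h1]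
  · intro S hS
    rw [proj, if_neg (by omega)]

theorem proj_add {n : ℕ} (u v : Finset (Fin n) → ℝ) (S : Finset (Fin n)) :
    proj (u + v) S = proj u S + proj v S := by
  unfold proj
  split_ifs
  · simp only [Pi.add_apply]; ring
  · ring

theorem proj_smul {n : ℕ} (a : ℝ) (u : Finset (Fin n) → ℝ) (S : Finset (Fin n)) :
    proj (a • u) S = a * proj u S := by
  unfold proj
  split_ifs
  · simp only [Pi.smul_apply, smul_eq_mul]; ring
  · ring

/-- The degree on an F-curve. -/
noncomputable def fdeg {n : ℕ} (t : FType n) : (Finset (Fin n) → ℝ) →ₗ[ℝ] ℝ where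
  toFun u := proj u (t.1.1 ∪ t.1.2.1) + proj u (t.1.1 ∪ t.1.2.2) + proj u (t.1.2.1 ∪ t.1.2.2) -
    proj u t.1.1 - proj u t.1.2.1 - proj u t.1.2.2 - proj u (t.1.1 ∪ t.1.2.1 ∪ t.1.2.2)
  map_add' u v := by simp only [proj_add]; ring
  map_smul' a u := by simp only [proj_smul, RingHom.id_apply, smul_eq_mul]; ring

/-- The degree on the class `a`. -/
noncomputable def cdeg {n : ℕ} (a : Finset (Fin n) → ℝ) : (Finset (Fin n) → ℝ) →ₗ[ℝ] ℝ where
  toFun u := (∑ S, proj u S * a S) / 2
  map_add' u v := by
    rw [← add_div, ← sum_add_distrib]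
    congr 1
    refine sum_congr rfl fun S _ => ?_
    rw [proj_add]; ring
  map_smul' c u := by
    rw [RingHom.id_apply, smul_eq_mul, ← mul_div_assoc, mul_sum]
    congr 1
    refine sum_congr rfl fun S _ => ?_
    rw [proj_smul]; ring

open Classical in
theorem proj_single {n : ℕ} {S : Finset (Fin n)} (h1 : 2 ≤ S.card) (h2 : S.card + 2 ≤ n)
    (X : Finset (Fin n)) : proj (fun R => if R = S then 1 else 0) X = same X S := by
  unfold proj same
  by_cases hX : 2 ≤ X.card ∧ X.card + 2 ≤ n
  · rw [if_pos hX]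
  · rw [if_neg hX]
    have h := card_compl' X
    rw [if_neg, if_neg, add_zero]
    · rintro rfl; omega
    · rintro rfl; omega

/-- From nonnegativity on all F-nef divisors to the cone of F-curves. -/
theorem inFCone {n : ℕ} (a : Finset (Fin n) → ℝ) (ha : ∀ S, a Sᶜ = a S)
    (h : ∀ c : Finset (Fin n) → ℝ, MP_23e236_ag.SymmetricDivisors.IsDivisor c →
      MP_23e236_ag.SymmetricDivisors.FNef c → 0 ≤ ∑ S, c S * a S) : InFCone a := by
  classical
  let e := Fintype.equivFin (FType n)
  obtain ⟨w, hw, hf⟩ := H575R2.farkas_lin (Fintype.card (FType n))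
    (fun i => -fdeg (e.symm i)) (-cdeg a) (by
      intro u hu
      have hdiv := proj_div u
      have h1 : MP_23e236_ag.SymmetricDivisors.FNef (proj u) := by
        intro A B C E hA hB hC hE hAB hAC hAE hBC hBE hCE hU
        have hEc : (A ∪ B ∪ C)ᶜ = E := by
          ext x
          have h3 := Finset.ext_iff.1 hU x
          have h4 : x ∈ A → x ∉ E := fun h => disjoint_left.1 hAE h
          have h5 : x ∈ B → x ∉ E := fun h => disjoint_left.1 hBE h
          have h6 : x ∈ C → x ∉ E := fun h => disjoint_left.1 hCE h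
          simp only [mem_union, mem_univ, iff_true, mem_compl] at h3 ⊢
          tauto
        have h2 := hu (e ⟨(A, B, C), hA, hB, hC, by rw [hEc]; exact hE, hAB, hAC, hBC⟩)
        rw [Equiv.symm_apply_apply] at h2
        have h3 : (-fdeg (⟨(A, B, C), hA, hB, hC, by rw [hEc]; exact hE, hAB, hAC, hBC⟩ :
            FType n)) u =
          -(proj u (A ∪ B) + proj u (A ∪ C) + proj u (B ∪ C) - proj u A - proj u B - proj u C -
            proj u (A ∪ B ∪ C)) := rfl
        rw [h3] at h2
        have h4 : proj u (A ∪ B ∪ C) = proj u E := by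
          rw [← hdiv.1 (A ∪ B ∪ C), hEc]
        have h5 : proj u (B ∪ C) = proj u (A ∪ E) := by
          rw [← hdiv.1 (B ∪ C)]
          congr 1
          rw [← hEc]
          ext x
          have e1 : x ∈ A → x ∉ B := fun h => disjoint_left.1 hAB h
          have e2 : x ∈ A → x ∉ C := fun h => disjoint_left.1 hAC h
          simp only [mem_union, mem_compl]
          tauto
        rw [h4, h5] at h2
        linarith
      have h4 := h (proj u) hdiv h1
      have h5 : (-cdeg a) u = -((∑ S, proj u S * a S) / 2) := rfl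
      rw [h5]
      linarith)
  refine ⟨fun t => w (e t), fun t => hw _, fun S hS1 hS2 => ?_⟩
  have h6 := hf (fun R => if R = S then 1 else 0)
  have h7 : (-cdeg a) (fun R => if R = S then 1 else 0) = -(a S) := by
    show -((∑ X, proj (fun R => if R = S then 1 else 0) X * a X) / 2) = -(a S)
    simp only [proj_single hS1 hS2]
    unfold same
    simp only [add_mul, sum_add_distrib, ite_mul, one_mul, zero_mul]
    rw [sum_ite_eq' univ S (fun X => a X), if_pos (mem_univ _)]
    have h8 : ∑ X : Finset (Fin n), (if Xᶜ = S then a X else 0) = a S := by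
      rw [sum_eq_single Sᶜ]
      · rw [if_pos (compl_compl S), ha]
      · intro X _ hX
        rw [if_neg]
        rintro rfl
        exact hX (compl_compl X).symm
      · intro h; exact absurd (mem_univ _) h
    rw [h8]; ring
  rw [h7] at h6
  have h8 : ∀ t : FType n, w (e t) * (-fdeg t) (fun R => if R = S then 1 else 0)
      = -(w (e t) * inter t S) := by
    intro t
    have h9 : (-fdeg t) (fun R => if R = S then 1 else 0) = -inter t S := by
      show -(proj _ _ + proj _ _ + proj _ _ - proj _ _ - proj _ _ - proj _ _ - proj _ _) = _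
      simp only [proj_single hS1 hS2]
      rfl
    rw [h9]; ring
  have h10 : ∑ i, w i * (-fdeg (e.symm i)) (fun R => if R = S then 1 else 0) =
      ∑ t, -(w (e t) * inter t S) := by
    rw [← Equiv.sum_comp e]
    refine sum_congr rfl fun t _ => ?_
    rw [Equiv.symm_apply_apply, h8]
  rw [h10, sum_neg_distrib] at h6
  linarith

theorem marks_compl {n k : ℕ} (ν : Fin n → Fin k) (A : Finset (Fin k)) :
    marks ν Aᶜ = (marks ν A)ᶜ := by
  ext x; simp only [marks, mem_filter, mem_univ, true_and, mem_compl]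

/-- The degree of a divisor on the curve. -/
theorem degree_eq {n k : ℕ} (ν : Fin n → Fin k) (m : Finset (Fin k) → ℕ) (ψ : Fin k → ℕ)
    {c : Finset (Fin n) → ℝ} (hc : ∀ S, c Sᶜ = c S) :
    ∑ S, c S * inters ν m ψ S = 2 * MP_23e236_ag.SymmetricDivisors.degree c ν m ψ := by
  classical
  have h1 : ∑ S, c S * ∑ T, (if marks ν T = S then (m T : ℝ) else 0) =
      ∑ T, c (marks ν T) * m T := by
    simp only [mul_sum, mul_ite, mul_zero]
    rw [sum_comm]
    refine sum_congr rfl fun T _ => ?_
    rw [sum_ite_eq univ (marks ν T) (fun S => c S * (m T : ℝ)), if_pos (mem_univ _)]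
  have h2 : ∑ S, c S * ∑ i, same (marks ν {i}) S * ψ i = 2 * ∑ i, c (marks ν {i}) * ψ i := by
    simp only [mul_sum, same]
    rw [sum_comm]
    refine sum_congr rfl fun i _ => ?_
    have h3 : ∀ S : Finset (Fin n), c S * (((if marks ν {i} = S then (1 : ℝ) else 0) +
        if (marks ν {i})ᶜ = S then 1 else 0) * ψ i) =
        (if marks ν {i} = S then c S * ψ i else 0) +
          (if (marks ν {i})ᶜ = S then c S * ψ i else 0) := by
      intro S
      split_ifs <;> ring
    rw [sum_congr rfl fun S _ => h3 S, sum_add_distrib,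
      sum_ite_eq univ (marks ν {i}) (fun S => c S * (ψ i : ℝ)), if_pos (mem_univ _),
      sum_ite_eq univ (marks ν {i})ᶜ (fun S => c S * (ψ i : ℝ)), if_pos (mem_univ _), hc]
    ring
  simp only [inters, mul_sub, sum_sub_distrib, h1, h2]
  unfold MP_23e236_ag.SymmetricDivisors.degree
  have h4 : ∑ T, c (marks ν T) * (m T : ℝ) =
    ∑ T, c (MP_23e236_ag.SymmetricDivisors.marks ν T) * (m T : ℝ) := rfl
  have h5 : ∑ i, c (marks ν {i}) * (ψ i : ℝ) =
    ∑ i, c (MP_23e236_ag.SymmetricDivisors.marks ν {i}) * (ψ i : ℝ) := rfl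
  rw [h4, h5]
  ring

theorem inters_compl {n k : ℕ} (ν : Fin n → Fin k) {m : Finset (Fin k) → ℕ} {ψ : Fin k → ℕ}
    (hm : ∀ T, m Tᶜ = m T) (S : Finset (Fin n)) : inters ν m ψ Sᶜ = inters ν m ψ S := by
  classical
  unfold inters
  congr 1
  · refine sum_nbij' (fun T => Tᶜ) (fun T => Tᶜ) ?_ ?_ ?_ ?_ ?_
    · intro T _; exact mem_univ _
    · intro T _; exact mem_univ _
    · intro T _; exact compl_compl T
    · intro T _; exact compl_compl T
    · intro T _
      simp only [hm, marks_compl, compl_eq_iff_isCompl]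
      congr 1
      rw [eq_iff_iff, ← compl_eq_iff_isCompl]
      constructor
      · intro h; rw [h, compl_compl]
      · intro h; rw [← h, compl_compl]
  · refine sum_congr rfl fun i _ => ?_
    congr 1
    unfold same
    rw [add_comm]
    congr 1
    · congr 1
      rw [eq_iff_iff]
      exact compl_inj_iff
    · congr 1
      rw [eq_iff_iff]
      constructor
      · intro h; rw [h, compl_compl]
      · intro h; rw [← h, compl_compl]

/-! ### Averages -/

theorem map_map_perm {n : ℕ} (σ τ : Equiv.Perm (Fin n)) (S : Finset (Fin n)) :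
    (S.map τ.toEmbedding).map σ.toEmbedding = S.map (σ * τ).toEmbedding := by
  rw [map_map]; rfl

theorem map_one_perm {n : ℕ} (S : Finset (Fin n)) :
    S.map (1 : Equiv.Perm (Fin n)).toEmbedding = S := by
  show S.map (Function.Embedding.refl _) = S
  exact map_refl

/-- The sum of the images of a curve is a nonnegative combination of F-curves if symmetric F-nef
divisors have nonnegative degree on the curve. -/
theorem average {n k : ℕ} (p : Equiv.Perm (Fin n) → Prop) [DecidablePred p]
    (hmul : ∀ σ τ, p σ → p τ → p (σ * τ)) (hinv : ∀ σ, p σ → p σ⁻¹)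
    (ν : Fin n → Fin k) {m : Finset (Fin k) → ℕ} {ψ : Fin k → ℕ} (hm : ∀ T, m Tᶜ = m T)
    (hnef : ∀ c : Finset (Fin n) → ℝ, MP_23e236_ag.SymmetricDivisors.IsDivisor c →
      MP_23e236_ag.SymmetricDivisors.FNef c →
      (∀ τ, p τ → ∀ S : Finset (Fin n), c (S.map τ.toEmbedding) = c S) →
      0 ≤ MP_23e236_ag.SymmetricDivisors.degree c ν m ψ) :
    InFCone fun S => ∑ σ ∈ univ.filter p, inters ν m ψ (S.map σ.toEmbedding) := by
  classical
  refine inFCone _ (fun S => ?_) fun c hc hF => ?_
  · refine sum_congr rfl fun σ _ => ?_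
    rw [show (Sᶜ).map σ.toEmbedding = (S.map σ.toEmbedding)ᶜ from ?_, inters_compl ν hm]
    ext x
    simp only [mem_map_equiv, mem_compl]
  · set c' : Finset (Fin n) → ℝ := fun S =>
      ∑ σ ∈ univ.filter p, c (S.map (σ⁻¹ : Equiv.Perm (Fin n)).toEmbedding) with hc'
    have hsum : ∑ S, c S * ∑ σ ∈ univ.filter p, inters ν m ψ (S.map σ.toEmbedding) =
        ∑ S, c' S * inters ν m ψ S := by
      simp only [hc', mul_sum, sum_mul]
      rw [sum_comm, sum_comm (s := (univ : Finset (Finset (Fin n))))]
      refine sum_congr rfl fun σ _ => ?_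
      refine sum_nbij' (fun S => S.map σ.toEmbedding)
        (fun S => S.map (σ⁻¹ : Equiv.Perm (Fin n)).toEmbedding) ?_ ?_ ?_ ?_ ?_
      · intro S _; exact mem_univ _
      · intro S _; exact mem_univ _
      · intro S _
        rw [map_map_perm, inv_mul_cancel, map_one_perm]
      · intro S _
        rw [map_map_perm, mul_inv_cancel, map_one_perm]
      · intro S _
        rw [map_map_perm, inv_mul_cancel, map_one_perm]
    rw [hsum]
    have hdiv : MP_23e236_ag.SymmetricDivisors.IsDivisor c' := by
      refine ⟨fun S => ?_, fun S hS => ?_⟩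
      · refine sum_congr rfl fun σ _ => ?_
        rw [← hc.1 (S.map _)]
        congr 1
        ext x
        simp only [mem_map_equiv, mem_compl]
      · refine sum_eq_zero fun σ _ => hc.2 _ ?_
        rw [card_map]; exact hS
    rw [degree_eq ν m ψ hdiv.1]
    have hnn := hnef c' hdiv ?_ ?_
    · linarith
    · intro A B C E hA hB hC hE hAB hAC hAE hBC hBE hCE hU
      simp only [hc', ← sum_add_distrib]
      refine sum_le_sum fun σ _ => ?_
      have := hF (A.map (σ⁻¹ : Equiv.Perm (Fin n)).toEmbedding)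
        (B.map (σ⁻¹ : Equiv.Perm (Fin n)).toEmbedding)
        (C.map (σ⁻¹ : Equiv.Perm (Fin n)).toEmbedding)
        (E.map (σ⁻¹ : Equiv.Perm (Fin n)).toEmbedding) (hA.map) (hB.map) (hC.map) (hE.map)
        ((disjoint_map _).2 hAB) ((disjoint_map _).2 hAC) ((disjoint_map _).2 hAE)
        ((disjoint_map _).2 hBC) ((disjoint_map _).2 hBE) ((disjoint_map _).2 hCE)
        (by rw [← map_union, ← map_union, ← map_union, hU]; ext x; simp)
      simpa only [map_union] using this
    · intro τ hτ S
      simp only [hc']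
      refine sum_nbij' (fun σ => τ⁻¹ * σ) (fun σ => τ * σ) ?_ ?_ ?_ ?_ ?_
      · intro σ hσ
        rw [mem_filter] at hσ ⊢
        exact ⟨mem_univ _, hmul _ _ (hinv _ hτ) hσ.2⟩
      · intro σ hσ
        rw [mem_filter] at hσ ⊢
        exact ⟨mem_univ _, hmul _ _ hτ hσ.2⟩
      · intro σ _; simp
      · intro σ _; simp
      · intro σ _
        rw [map_map_perm, mul_inv_rev, inv_inv]

/-- Averages of curves on `M̄_{0,n}` are nonnegative combinations of F-curves.

1. For a colouring of the marks, let `C` be a curve in a component `M̄_{0,k}` of a stratum such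
that, apart from one special point `i₀`, there are at most 6 kinds of branches at the special
points of the component (the kind of a branch is given by the numbers of marks of the different
colours on it). Then the sum of the images of `C` under the permutations of the marks that preserve
the colours is a nonnegative combination of F-curves.

2. Let `n = g + r`, `r = 0` and `g ≤ 35`, or `r = 1` and `g ≤ 27`, or `r = 2` and `g ≤ 20`, or
`r = 3` and `g ≤ 14`, or `r = 4` and `g ≤ 9`, or `r = 5` and `g ≤ 5`, or `r = 6` and `g ≤ 2`. Then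
for all curves in all strata the sum of the images of the curve under the permutations of the first
`g` marks is a nonnegative combination of F-curves. -/
theorem result :
    (∀ (n r : ℕ) (col : Fin n → Fin r) (k : ℕ), 4 ≤ k → ∀ ν : Fin n → Fin k,
      Function.Surjective ν → ∀ i₀ : Fin k, ((univ.erase i₀).image (branch col ν)).card ≤ 6 →
      ∀ (m : Finset (Fin k) → ℕ) (ψ : Fin k → ℕ), IsCurve m ψ →
      InFCone fun S => ∑ σ ∈ univ.filter (fun σ : Equiv.Perm (Fin n) => ∀ x, col (σ x) = col x),
        inters ν m ψ (S.map σ.toEmbedding)) ∧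
    ∀ g r : ℕ, ((r = 0 ∧ g ≤ 35) ∨ (r = 1 ∧ g ≤ 27) ∨ (r = 2 ∧ g ≤ 20) ∨ (r = 3 ∧ g ≤ 14) ∨
        (r = 4 ∧ g ≤ 9) ∨ (r = 5 ∧ g ≤ 5) ∨ (r = 6 ∧ g ≤ 2)) →
      ∀ k : ℕ, 4 ≤ k → ∀ ν : Fin (g + r) → Fin k, Function.Surjective ν →
      ∀ (m : Finset (Fin k) → ℕ) (ψ : Fin k → ℕ), IsCurve m ψ →
      InFCone fun S => ∑ σ ∈ univ.filter
          (fun σ : Equiv.Perm (Fin (g + r)) => ∀ x : Fin (g + r), g ≤ x.val → σ x = x),
        inters ν m ψ (S.map σ.toEmbedding) := by
  refine ⟨?_, ?_⟩
  · intro n r col k hk ν hν i₀ hi m ψ hm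
    refine average _ ?_ ?_ ν hm.1 fun c hc hF hS => ?_
    · intro σ τ h1 h2 x
      rw [Equiv.Perm.mul_apply, h1, h2]
    · intro σ h x
      have h1 := h (σ⁻¹ x)
      have h2 : σ (σ⁻¹ x) = x := Equiv.apply_symm_apply σ x
      rw [h2] at h1
      exact h1.symm
    · exact MP_23e236_ag.SymmetricDivisors.result.1 n r col c hc hF hS k hk ν hν i₀ hi m ψ hm
  · intro g r hgr k hk ν hν m ψ hm
    refine average _ ?_ ?_ ν hm.1 fun c hc hF hS => ?_
    · intro σ τ h1 h2 x hx
      rw [Equiv.Perm.mul_apply, h2 x hx, h1 x hx]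
    · intro σ h x hx
      have := h x hx
      rw [Equiv.Perm.inv_eq_iff_eq]
      exact this.symm
    · exact MP_23e236_ag.SymmetricDivisors.result.2 g r c hc hF hS hgr k hk ν hν m ψ hm

end Pool.Agent.Results.MP_159100_ag.SymmetricCurves
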